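import Pool.Agent.TH336.ER.Final
import Pool.Agent.TH336.ER.Win
import Pool.Agent.TH751.ERS.Sector

/-!
# Lower bounds of the conjectured order for the moments of zeta on every ray and in every sector

For every rational `k ≥ 2` there are `c > 0`, `B`, `T₀` such that for all `T ≥ T₀`, `(log T)^B ≤ U ≤ T`:
for every ray `{r u : r > 0}` the sum of `|ζ(1/2 + it)|^k` over the `t ∈ (T, T + U]` at which `ζ(1/2 + it)`
is on the ray is at least `c U log T (log U)^(k²/4)`, and for every measurable set `J` of arguments the integral of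
`|ζ(1/2 + it)|^k` over the `t ∈ (T, T + U]` with `arg ζ(1/2 + it) ∈ J` is at least `c |J| U (log U)^(k²/4)`.
-/

set_option autoImplicit false

open Complex MeasureTheory Set Filter Topology

namespace Pool.Agent.Results.MP_91b7ff_nt.EveryRay

open Pool.Agent.TH336.ER

theorem rays (k : ℚ) (hk : 2 ≤ k) : StRays (k : ℝ) ((k : ℝ) ^ 2 / 4) := by
  have hk0 : 0 ≤ k := by linarith
  have hnum : 0 ≤ k.num := Rat.num_nonneg.2 hk0
  have hcast : ((k.num.toNat : ℕ) : ℝ) / (k.den : ℝ) = (k : ℝ) := by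
    have h1 : ((k.num.toNat : ℕ) : ℝ) = (k.num : ℝ) := by
      have : ((k.num.toNat : ℕ) : ℤ) = k.num := Int.toNat_of_nonneg hnum
      exact_mod_cast this
    rw [h1]
    exact (Rat.cast_def k).symm
  have hden : (0 : ℝ) < k.den := by exact_mod_cast k.den_pos
  have hk2 : (2 : ℝ) ≤ (k : ℝ) := by exact_mod_cast hk
  have hab : 2 * k.den ≤ k.num.toNat := by
    have h2 : (2 : ℝ) * k.den ≤ (k.num.toNat : ℕ) := by
      rw [← hcast, le_div_iff₀ hden] at hk2
      exact hk2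
    exact_mod_cast h2
  have h := stCentre k.num.toNat k.den k.den_pos hab
  rw [hcast] at h
  exact window _ _ (by linarith) (by positivity) h

theorem result (k : ℚ) (hk : 2 ≤ k) : ∃ c B T₀ : ℝ, 0 < c ∧ ∀ T U : ℝ, T₀ ≤ T →
    Real.log T ^ B ≤ U → U ≤ T →
    (∀ u : ℂ, u ≠ 0 → c * (U * Real.log T * Real.log U ^ ((k : ℝ) ^ 2 / 4)) ≤
      ∑ᶠ t ∈ {t : ℝ | T < t ∧ t ≤ T + U ∧ ∃ r : ℝ, 0 < r ∧ riemannZeta (1 / 2 + t * I) = r * u},
        ‖riemannZeta (1 / 2 + t * I)‖ ^ (k : ℝ)) ∧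
    (∀ J : Set ℝ, MeasurableSet J → J ⊆ Ioc (-Real.pi) Real.pi →
      c * ((volume J).toReal * (U * Real.log U ^ ((k : ℝ) ^ 2 / 4))) ≤
      ∫ t in {t : ℝ | T < t ∧ t ≤ T + U ∧ (riemannZeta (1 / 2 + t * I)).arg ∈ J},
        ‖riemannZeta (1 / 2 + t * I)‖ ^ (k : ℝ)) := by
  have hk2 : (2 : ℝ) ≤ (k : ℝ) := by exact_mod_cast hk
  obtain ⟨c1, B1, T1, hc1, h1⟩ := rays k hk
  obtain ⟨c2, B2, T2, hc2, h2⟩ := Pool.Agent.TH751.ERS.sector (k : ℝ) ((k : ℝ) ^ 2 / 4)
    (by linarith) (rays k hk)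
  refine ⟨min c1 c2, max (max B1 B2) 0, max (max T1 T2) (Real.exp 1), lt_min hc1 hc2, ?_⟩
  intro T U hT hU1 hU2
  have hT1 : T1 ≤ T := le_trans (le_max_left _ _) (le_trans (le_max_left _ _) hT)
  have hT2 : T2 ≤ T := le_trans (le_max_right _ _) (le_trans (le_max_left _ _) hT)
  have hTe : Real.exp 1 ≤ T := le_trans (le_max_right _ _) hT
  have hT0 : 0 < T := lt_of_lt_of_le (Real.exp_pos _) hTe
  have hL : 1 ≤ Real.log T := by
    rw [Real.le_log_iff_exp_le hT0]
    exact hTe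
  have hB1 : Real.log T ^ B1 ≤ U :=
    (Real.rpow_le_rpow_of_exponent_le hL
      (le_trans (le_max_left _ _) (le_max_left _ _))).trans hU1
  have hB2 : Real.log T ^ B2 ≤ U :=
    (Real.rpow_le_rpow_of_exponent_le hL
      (le_trans (le_max_right _ _) (le_max_left _ _))).trans hU1
  have hU : 1 ≤ U := (Real.one_le_rpow hL (le_max_right _ _)).trans hU1
  have hlU : 0 ≤ Real.log U ^ ((k : ℝ) ^ 2 / 4) := Real.rpow_nonneg (Real.log_nonneg hU) _
  constructor
  · intro u hu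
    have hn : 0 < ‖u‖ := norm_pos_iff.2 hu
    have hnc : (‖u‖ : ℂ) ≠ 0 := by exact_mod_cast hn.ne'
    have hv : ‖u / (‖u‖ : ℂ)‖ = 1 := by
      rw [norm_div, Complex.norm_real, norm_norm, div_self hn.ne']
    have h3 := h1 T U hT1 hB1 hU2 _ hv
    have hset : {t : ℝ | T < t ∧ t ≤ T + U ∧ ∃ r : ℝ, 0 < r ∧
          riemannZeta (1 / 2 + t * I) = r * (u / (‖u‖ : ℂ))} =
        {t : ℝ | T < t ∧ t ≤ T + U ∧ ∃ r : ℝ, 0 < r ∧ riemannZeta (1 / 2 + t * I) = r * u} := by
      ext t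
      simp only [Set.mem_setOf_eq]
      refine and_congr_right fun _ => and_congr_right fun _ => ⟨?_, ?_⟩
      · rintro ⟨r, hr, h⟩
        refine ⟨r / ‖u‖, by positivity, ?_⟩
        rw [h]
        push_cast
        ring
      · rintro ⟨r, hr, h⟩
        refine ⟨r * ‖u‖, by positivity, ?_⟩
        rw [h]
        push_cast
        field_simp
    rw [hset] at h3
    refine le_trans ?_ h3
    exact mul_le_mul_of_nonneg_right (min_le_left _ _) (by positivity)
  · intro J hJ hJ2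
    refine le_trans ?_ (h2 T U hT2 hB2 hU2 J hJ hJ2)
    exact mul_le_mul_of_nonneg_right (min_le_right _ _) (by positivity)

end Pool.Agent.Results.MP_91b7ff_nt.EveryRay
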