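import Pool.Agent.TH526.FM.Main

set_option autoImplicit false

/-!
Unconditional explicit lower bound for the first moment of the Riemann zeta function on the critical line.
-/

open Filter

theorem Pool.Agent.Results.MP_91b7ff_nt.FirstMomentLower.result :
    ∀ᶠ T : ℝ in atTop,
      523 / 1000 * ((∏' p : Nat.Primes, ((1 - 1 / (p : ℝ)) ^ ((1 : ℝ) / 4) *
          ∑' m : ℕ, (∏ i ∈ Finset.range m, ((1 : ℝ) / 2 + i) / ((i : ℝ) + 1)) ^ 2 *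
            (1 / (p : ℝ)) ^ m)) / Real.Gamma (5 / 4)) *
        (T * Real.log T ^ ((1 : ℝ) / 4)) ≤
      ∫ t in (0:ℝ)..T, ‖riemannZeta (1 / 2 + t * Complex.I)‖ := by
  have e : Pool.Agent.H306R2.aF (1 / ((2:ℕ):ℝ)) =
      ∏' p : Nat.Primes, ((1 - 1 / (p : ℝ)) ^ ((1 : ℝ) / 4) *
          ∑' m : ℕ, (∏ i ∈ Finset.range m, ((1 : ℝ) / 2 + i) / ((i : ℝ) + 1)) ^ 2 *
            (1 / (p : ℝ)) ^ m) := by
    unfold Pool.Agent.H306R2.aF Pool.Agent.H306R2.lc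
    rw [show (1 / ((2:ℕ):ℝ)) ^ 2 = (1 : ℝ) / 4 by norm_num]
    norm_num
  have eg : (1 / ((2:ℕ):ℝ)) ^ 2 + 1 = (5 / 4 : ℝ) := by norm_num
  have em : ∀ T : ℝ, Pool.Agent.W184.MM 2 T = T * Real.log T ^ ((1 : ℝ) / 4) := fun T => by
    unfold Pool.Agent.W184.MM
    rw [show (1 / ((2:ℕ):ℝ)) ^ 2 = (1 : ℝ) / 4 by norm_num]
  have ez : ∀ t : ℝ, Pool.Agent.W184.zn (1 / 2) t ^ (2 / ((2:ℕ):ℝ)) =
      ‖riemannZeta (1 / 2 + t * Complex.I)‖ := fun t => by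
    have h2 : (2 / ((2:ℕ):ℝ)) = 1 := by norm_num
    rw [h2, Real.rpow_one]
    unfold Pool.Agent.W184.zn
    norm_num
  rw [← e]
  filter_upwards [Pool.Agent.TH526.FM.first_lowerG] with T hl
  rw [eg, em] at hl
  simp only [ez] at hl
  refine le_trans (le_of_eq ?_) hl
  ring
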