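import Pool.Agent.TH535.Expl5
import Pool.Agent.TH535.GrowthT

set_option autoImplicit false

/-!
Unconditional lower bounds for the odd moments of zeta on the critical line: explicit constants for
every odd exponent `k ≥ 5`, on `[0, T]` and on all intervals `[T, T + U]` with `U ≥ (log T) ^ B`, and
constants growing like `A ^ (k ^ 2 / 4) a(k/2) / Γ(k ^ 2 / 4 + 1)` for large odd `k`, for every `A` below
`sup_{0 < t < 1} 4^(1-t) t^(-t) (1+t)^(-(1-t^2)/t) = 1.7435...`.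
-/

open Filter

/-- the parameters for the exponent `k` -/
theorem Pool.Agent.Results.MP_91b7ff_nt.OddFromFive.params (k : ℕ) (hk : Odd k) (h5 : 5 ≤ k) :
    ∃ (n j : ℕ) (q : Fin n → ℕ),
      Pool.Agent.TH535.AdmN ((k : ℝ) / 2) j q (fun a => 1 / (q a : ℝ)) ∧
      (if k = 5 then (4 / 5 : ℝ) else if k = 7 then 1 else if k = 9 then 20 else
        (4 / 3) ^ (3 * (k : ℝ) ^ 2 / 8) / (k : ℝ) ^ 4) *
        (Pool.Agent.H306R2.aF ((k : ℝ) / 2) / Real.Gamma (((k : ℝ) / 2) ^ 2 + 1)) <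
      Pool.Agent.H306R2.aF ((k : ℝ) / 2) *
        Pool.Agent.TH535.MN ((k : ℝ) / 2) j q (fun a => 1 / (q a : ℝ)) := by
  by_cases h : k = 5
  · subst h
    rw [if_pos rfl]
    have e : (((5 : ℕ) : ℝ)) / 2 = 5 / 2 := by norm_num
    rw [e]
    obtain ⟨h1, h2⟩ := Pool.Agent.TH535.case5
    exact ⟨_, _, _, h1, Pool.Agent.TH535.adm_const (by norm_num) h1 (by norm_num) h2⟩
  by_cases h' : k = 7
  · subst h'
    rw [if_neg (by norm_num), if_pos rfl]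
    have e : (((7 : ℕ) : ℝ)) / 2 = 7 / 2 := by norm_num
    rw [e]
    obtain ⟨h1, h2⟩ := Pool.Agent.TH535.case7
    exact ⟨_, _, _, h1, Pool.Agent.TH535.adm_const (by norm_num) h1 (by norm_num)
      (by rw [Real.log_one]; exact h2)⟩
  by_cases h'' : k = 9
  · subst h''
    rw [if_neg (by norm_num), if_neg (by norm_num), if_pos rfl]
    have e : (((9 : ℕ) : ℝ)) / 2 = 9 / 2 := by norm_num
    rw [e]
    obtain ⟨h1, h2⟩ := Pool.Agent.TH535.case9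
    refine ⟨_, _, _, h1, Pool.Agent.TH535.adm_const (by norm_num) h1 (by norm_num) (lt_of_lt_of_le ?_ h2.le)⟩
    have a2 := Real.log_two_lt_d9
    have d2 := Real.log_five_lt_d9
    rw [show (20 : ℝ) = 2 ^ 2 * 5 by norm_num, Real.log_mul (by norm_num) (by norm_num), Real.log_pow]
    push_cast
    norm_num at a2 d2 ⊢
    linarith
  rw [if_neg h, if_neg h', if_neg h'']
  exact Pool.Agent.TH535.expl_const k (by obtain ⟨m, hm⟩ := hk; omega)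

/-- explicit constants for every odd exponent -/
theorem Pool.Agent.Results.MP_91b7ff_nt.OddFromFive.explicit (k : ℕ) (hk : Odd k)
    (h5 : 5 ≤ k) :
    (∀ᶠ T : ℝ in atTop,
      (if k = 5 then (4 / 5 : ℝ) else if k = 7 then 1 else if k = 9 then 20 else
        (4 / 3) ^ (3 * (k : ℝ) ^ 2 / 8) / (k : ℝ) ^ 4) *
        (∏' p : Nat.Primes, ((1 - 1 / (p : ℝ)) ^ ((k : ℝ) ^ 2 / 4) *
          ∑' m : ℕ, (∏ i ∈ Finset.range m, ((k : ℝ) / 2 + i) / ((i : ℝ) + 1)) ^ 2 *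
            (1 / (p : ℝ)) ^ m)) / Real.Gamma ((k : ℝ) ^ 2 / 4 + 1) *
        (T * Real.log T ^ ((k : ℝ) ^ 2 / 4)) ≤
      ∫ t in (0:ℝ)..T, ‖riemannZeta (1 / 2 + t * Complex.I)‖ ^ k) ∧
    (∃ B : ℝ, 0 < B ∧ ∀ᶠ T : ℝ in atTop, ∀ U : ℝ, Real.log T ^ B ≤ U →
      (if k = 5 then (4 / 5 : ℝ) else if k = 7 then 1 else if k = 9 then 20 else
        (4 / 3) ^ (3 * (k : ℝ) ^ 2 / 8) / (k : ℝ) ^ 4) *
        (∏' p : Nat.Primes, ((1 - 1 / (p : ℝ)) ^ ((k : ℝ) ^ 2 / 4) *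
          ∑' m : ℕ, (∏ i ∈ Finset.range m, ((k : ℝ) / 2 + i) / ((i : ℝ) + 1)) ^ 2 *
            (1 / (p : ℝ)) ^ m)) / Real.Gamma ((k : ℝ) ^ 2 / 4 + 1) *
        (U * Real.log U ^ ((k : ℝ) ^ 2 / 4)) ≤
      ∫ t in T..(T + U), ‖riemannZeta (1 / 2 + t * Complex.I)‖ ^ k) := by
  obtain ⟨n, j, q, hA, hc⟩ := Pool.Agent.Results.MP_91b7ff_nt.OddFromFive.params k hk h5
  have hk0 : (0 : ℝ) < (k : ℝ) / 2 := by
    have : (0 : ℝ) < k := by exact_mod_cast (by omega : 0 < k)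
    positivity
  have e : Pool.Agent.H306R2.aF ((k : ℝ) / 2) =
      ∏' p : Nat.Primes, ((1 - 1 / (p : ℝ)) ^ ((k : ℝ) ^ 2 / 4) *
          ∑' m : ℕ, (∏ i ∈ Finset.range m, ((k : ℝ) / 2 + i) / ((i : ℝ) + 1)) ^ 2 *
            (1 / (p : ℝ)) ^ m) := by
    unfold Pool.Agent.H306R2.aF Pool.Agent.H306R2.lc
    rw [show ((k : ℝ) / 2) ^ 2 = (k : ℝ) ^ 2 / 4 by ring]
  constructor
  · have h := Pool.Agent.TH535.masterN ((k : ℝ) / 2) hk0 j q _ hA _ hc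
    rw [e, show ((k : ℝ) / 2) ^ 2 = (k : ℝ) ^ 2 / 4 by ring,
      show 2 * ((k : ℝ) / 2) = (k : ℝ) by ring] at h
    simp only [Real.rpow_natCast] at h
    filter_upwards [h] with T hT
    refine le_trans (le_of_eq ?_) hT
    ring
  · obtain ⟨B, hB, h⟩ := Pool.Agent.TH535.masterNX ((k : ℝ) / 2) hk0 j q _ hA _ hc
    rw [e, show ((k : ℝ) / 2) ^ 2 = (k : ℝ) ^ 2 / 4 by ring,
      show 2 * ((k : ℝ) / 2) = (k : ℝ) by ring] at h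
    simp only [Real.rpow_natCast] at h
    refine ⟨B, hB, ?_⟩
    filter_upwards [h] with T hT U hU
    refine le_trans (le_of_eq ?_) (hT U hU)
    ring

/-- growth of the constants -/
theorem Pool.Agent.Results.MP_91b7ff_nt.OddFromFive.growth (t A : ℝ) (ht : 0 < t)
    (ht1 : t < 1) (hA : 0 < A)
    (hAt : A < 4 ^ (1 - t) / (t ^ t * (1 + t) ^ ((1 - t ^ 2) / t))) :
    ∃ K : ℕ, ∀ k : ℕ, K ≤ k → Odd k → ∀ᶠ T : ℝ in atTop,
      A ^ ((k : ℝ) ^ 2 / 4) * (∏' p : Nat.Primes, ((1 - 1 / (p : ℝ)) ^ ((k : ℝ) ^ 2 / 4) *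
          ∑' m : ℕ, (∏ i ∈ Finset.range m, ((k : ℝ) / 2 + i) / ((i : ℝ) + 1)) ^ 2 *
            (1 / (p : ℝ)) ^ m)) / Real.Gamma ((k : ℝ) ^ 2 / 4 + 1) *
        (T * Real.log T ^ ((k : ℝ) ^ 2 / 4)) ≤
      ∫ t in (0:ℝ)..T, ‖riemannZeta (1 / 2 + t * Complex.I)‖ ^ k := by
  rw [← Pool.Agent.TH535.exp_GG ht] at hAt
  obtain ⟨K, hK⟩ := Pool.Agent.TH535.growth ht ht1 hA hAt
  refine ⟨K, fun k hk _ => ?_⟩
  have h := hK k hk
  have e : Pool.Agent.H306R2.aF ((k : ℝ) / 2) =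
      ∏' p : Nat.Primes, ((1 - 1 / (p : ℝ)) ^ ((k : ℝ) ^ 2 / 4) *
          ∑' m : ℕ, (∏ i ∈ Finset.range m, ((k : ℝ) / 2 + i) / ((i : ℝ) + 1)) ^ 2 *
            (1 / (p : ℝ)) ^ m) := by
    unfold Pool.Agent.H306R2.aF Pool.Agent.H306R2.lc
    rw [show ((k : ℝ) / 2) ^ 2 = (k : ℝ) ^ 2 / 4 by ring]
  rw [e, show ((k : ℝ) / 2) ^ 2 = (k : ℝ) ^ 2 / 4 by ring,
    show 2 * ((k : ℝ) / 2) = (k : ℝ) by ring] at h
  simp only [Real.rpow_natCast] at h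
  filter_upwards [h] with T hT
  refine le_trans (le_of_eq ?_) hT
  ring

theorem Pool.Agent.Results.MP_91b7ff_nt.OddFromFive.result :
    (∀ k : ℕ, Odd k → 5 ≤ k →
      (∀ᶠ T : ℝ in atTop,
        (if k = 5 then (4 / 5 : ℝ) else if k = 7 then 1 else if k = 9 then 20 else
          (4 / 3) ^ (3 * (k : ℝ) ^ 2 / 8) / (k : ℝ) ^ 4) *
          (∏' p : Nat.Primes, ((1 - 1 / (p : ℝ)) ^ ((k : ℝ) ^ 2 / 4) *
            ∑' m : ℕ, (∏ i ∈ Finset.range m, ((k : ℝ) / 2 + i) / ((i : ℝ) + 1)) ^ 2 *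
              (1 / (p : ℝ)) ^ m)) / Real.Gamma ((k : ℝ) ^ 2 / 4 + 1) *
          (T * Real.log T ^ ((k : ℝ) ^ 2 / 4)) ≤
        ∫ t in (0:ℝ)..T, ‖riemannZeta (1 / 2 + t * Complex.I)‖ ^ k) ∧
      (∃ B : ℝ, 0 < B ∧ ∀ᶠ T : ℝ in atTop, ∀ U : ℝ, Real.log T ^ B ≤ U →
        (if k = 5 then (4 / 5 : ℝ) else if k = 7 then 1 else if k = 9 then 20 else
          (4 / 3) ^ (3 * (k : ℝ) ^ 2 / 8) / (k : ℝ) ^ 4) *
          (∏' p : Nat.Primes, ((1 - 1 / (p : ℝ)) ^ ((k : ℝ) ^ 2 / 4) *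
            ∑' m : ℕ, (∏ i ∈ Finset.range m, ((k : ℝ) / 2 + i) / ((i : ℝ) + 1)) ^ 2 *
              (1 / (p : ℝ)) ^ m)) / Real.Gamma ((k : ℝ) ^ 2 / 4 + 1) *
          (U * Real.log U ^ ((k : ℝ) ^ 2 / 4)) ≤
        ∫ t in T..(T + U), ‖riemannZeta (1 / 2 + t * Complex.I)‖ ^ k)) ∧
    (∀ t A : ℝ, 0 < t → t < 1 → 0 < A →
      A < 4 ^ (1 - t) / (t ^ t * (1 + t) ^ ((1 - t ^ 2) / t)) →
      ∃ K : ℕ, ∀ k : ℕ, K ≤ k → Odd k → ∀ᶠ T : ℝ in atTop,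
        A ^ ((k : ℝ) ^ 2 / 4) * (∏' p : Nat.Primes, ((1 - 1 / (p : ℝ)) ^ ((k : ℝ) ^ 2 / 4) *
            ∑' m : ℕ, (∏ i ∈ Finset.range m, ((k : ℝ) / 2 + i) / ((i : ℝ) + 1)) ^ 2 *
              (1 / (p : ℝ)) ^ m)) / Real.Gamma ((k : ℝ) ^ 2 / 4 + 1) *
          (T * Real.log T ^ ((k : ℝ) ^ 2 / 4)) ≤
        ∫ t in (0:ℝ)..T, ‖riemannZeta (1 / 2 + t * Complex.I)‖ ^ k) :=
  ⟨fun k hk h5 => Pool.Agent.Results.MP_91b7ff_nt.OddFromFive.explicit k hk h5,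
    fun t A ht ht1 hA hAt => Pool.Agent.Results.MP_91b7ff_nt.OddFromFive.growth t A ht ht1 hA hAt⟩
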